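import Mathlib
import Pool.Agent.TH773.PSet.Defs
import Pool.Agent.Q307.RF.Defs

/-!
# Sentences about relative densities and about the covering number of the null ideal

The connectives, names for subsets of `ω` and random forcing are those of
`Pool.Agent.TH773.PSet.Defs`. Subsets of `ω` are identified with points of Cantor space.
-/

set_option autoImplicit false

namespace Pool.Agent.Q307.Osc

open Cardinal Pool.Agent.TH773.PSet Pool.Agent.Q307.RF

universe u v

variable {P : Type u} [Preorder P]

/-- The complement of the named subset `A` of `ω` is infinite. -/
def Coinf (A : RName P) : Set P :=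
  fall fun N : ℕ => fex fun n => fex fun _ : N ≤ n => fnot (meets (A n))

/-- `F` is the set of all elements of the named set `A` which are less than `n`. -/
def Trace (A : RName P) (n : ℕ) (F : Finset ℕ) : Set P :=
  fand (fground (F ⊆ Finset.range n))
    (fall fun k : ℕ => fall fun _ : k < n =>
      fand (fimp (fground (k ∈ F)) (meets (A k))) (fimp (meets (A k)) (fground (k ∈ F))))

/-- The relative density `d_R(S)` does not oscillate: the quotients `|S ∩ R ∩ n| / |R ∩ n|` form a
Cauchy sequence. -/
def NonOsc (S R : RName P) : Set P :=
  fall fun m : ℕ => fex fun N : ℕ => fall fun n : ℕ => fall fun _ : N ≤ n =>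
    fall fun n' : ℕ => fall fun _ : N ≤ n' =>
      fall fun F : Finset ℕ => fall fun G : Finset ℕ =>
        fall fun F' : Finset ℕ => fall fun G' : Finset ℕ =>
          fimp (fand (fand (Trace S n F) (Trace R n G)) (fand (Trace S n' F') (Trace R n' G')))
            (fground (|((F ∩ G).card : ℝ) / G.card - ((F' ∩ G').card : ℝ) / G'.card| ≤
              1 / ((m : ℝ) + 1)))

variable (P) in
/-- In the extension the oscillation reaping number is at most the size of `Y`: there is a family
of infinite sets which is indexed by `Y`, such that for every infinite-coinfinite set `S` the
relative density of `S` in some member of the family does not oscillate. -/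
def OscLe (Y : Type v) : Set P :=
  fex fun E : Y → RName P =>
    fand (fall fun y => Inf (E y))
      (fall fun S : RName P => fimp (fand (Inf S) (Coinf S)) (fex fun y => NonOsc S (E y)))

/-- `T` names a function from `ω` to the finite binary sequences, such that the sum of all
`2 ^ (- length of T n)` is at most `1`. -/
def NullCode (T : ℕ → List Bool → Set P) : Set P :=
  fand (IsFun T)
    (fall fun L : List (List Bool) =>
      fimp (fall fun i : ℕ => fall fun _ : i < L.length => meets (T i (L.getD i [])))
        (fground ((L.map fun s => (1 / 2 : ℝ) ^ s.length).sum ≤ 1)))

/-- The finite binary sequence `s` is an initial segment of the named point `x` of Cantor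
space. -/
def InitSeg (s : List Bool) (x : RName P) : Set P :=
  fall fun i : ℕ => fall fun _ : i < s.length =>
    fand (fimp (fground (s.getD i false = true)) (meets (x i)))
      (fimp (meets (x i)) (fground (s.getD i false = true)))

/-- `x` belongs to the null set which is coded by `T`: for infinitely many `n`, the sequence
`T n` is an initial segment of `x`. -/
def InNull (x : RName P) (T : ℕ → List Bool → Set P) : Set P :=
  fall fun N : ℕ => fex fun n : ℕ => fex fun _ : N ≤ n => fex fun s : List Bool =>
    fand (meets (T n s)) (InitSeg s x)

variable (P) in
/-- In the extension Cantor space is covered by null sets which are indexed by `Y`. -/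
def CovNullLe (Y : Type v) : Set P :=
  fex fun T : Y → ℕ → List Bool → Set P =>
    fand (fall fun y => NullCode (T y)) (fall fun x : RName P => fex fun y => InNull x (T y))

end Pool.Agent.Q307.Osc
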