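import Mathlib

/-!
# Komlós' theorem for sequences of events

For every sequence of events there is a subsequence for which, almost surely, the relative
frequency of the events which happen converges.
-/

set_option autoImplicit false
set_option linter.unusedSectionVars false

namespace Pool.Agent.Q307.Osc

open MeasureTheory Set Filter Topology

variable {Ω : Type*} [MeasurableSpace Ω] {μ : Measure Ω} [IsProbabilityMeasure μ]

/-- bounded real sequences converge along an ultrafilter -/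
theorem exists_ulim (U : Ultrafilter ℕ) (u : ℕ → ℝ) (h : ∀ n, u n ∈ Icc (0 : ℝ) 1) :
    ∃ c ∈ Icc (0 : ℝ) 1, Tendsto u U (𝓝 c) := by
  have h1 : (Ultrafilter.map u U : Filter ℝ) ≤ 𝓟 (Icc (0 : ℝ) 1) := by
    rw [Filter.le_principal_iff]
    exact Filter.mem_map.2 (Filter.univ_mem' h)
  obtain ⟨c, hc, hc'⟩ := isCompact_Icc.ultrafilter_le_nhds (Ultrafilter.map u U) h1
  exact ⟨c, hc, hc'⟩

theorem measureReal_mem (E : Set Ω) : μ.real E ∈ Icc (0 : ℝ) 1 :=
  ⟨measureReal_nonneg, measureReal_le_one⟩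

/-- A subsequence of nearly equal correlations. -/
theorem exists_subseq (E : ℕ → Set Ω) : ∃ (k : ℕ → ℕ) (c : ℝ), StrictMono k ∧
    c ∈ Icc (0 : ℝ) 1 ∧ ∀ i j, i < j → |μ.real (E (k i) ∩ E (k j)) - c| ≤ 2 * (1 / 2) ^ i := by
  let U : Ultrafilter ℕ := Filter.hyperfilter ℕ
  have hU : ∀ m, ∀ᶠ n in (U : Filter ℕ), m < n := fun m =>
    (Nat.hyperfilter_le_atTop) (eventually_gt_atTop m)
  choose c hc hct using fun i => exists_ulim U (fun n => μ.real (E i ∩ E n))
    (fun n => measureReal_mem _)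
  obtain ⟨c0, hc0, hc0t⟩ := exists_ulim U c hc
  have hnx : ∀ M j : ℕ, ∃ n, M < n ∧ (∀ i ≤ M, |μ.real (E i ∩ E n) - c i| ≤ (1 / 2) ^ j) ∧
      |c n - c0| ≤ (1 / 2) ^ j := by
    intro M j
    have hpos : (0 : ℝ) < (1 / 2) ^ j := by positivity
    have h1 : ∀ i ∈ Finset.range (M + 1), ∀ᶠ n in (U : Filter ℕ),
        |μ.real (E i ∩ E n) - c i| ≤ (1 / 2) ^ j := by
      intro i _
      have := (Metric.tendsto_nhds.1 (hct i)) _ hpos
      filter_upwards [this] with n hn
      rw [Real.dist_eq] at hn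
      exact hn.le
    have h2 := (Finset.eventually_all (Finset.range (M + 1))).2 h1
    have h3 : ∀ᶠ n in (U : Filter ℕ), |c n - c0| ≤ (1 / 2) ^ j := by
      have := (Metric.tendsto_nhds.1 hc0t) _ hpos
      filter_upwards [this] with n hn
      rw [Real.dist_eq] at hn
      exact hn.le
    obtain ⟨n, hn1, hn2, hn3⟩ := ((hU M).and (h2.and h3)).exists
    exact ⟨n, hn1, fun i hi => hn2 i (Finset.mem_range.2 (Nat.lt_succ_of_le hi)), hn3⟩
  choose nx hnx1 hnx2 hnx3 using hnx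
  let k : ℕ → ℕ := fun j => Nat.rec (nx 0 0) (fun j m => nx m (j + 1)) j
  have hk0 : k 0 = nx 0 0 := rfl
  have hks : ∀ j, k (j + 1) = nx (k j) (j + 1) := fun j => rfl
  have hkm : StrictMono k := strictMono_nat_of_lt_succ fun j => by
    rw [hks]
    exact hnx1 _ _
  refine ⟨k, c0, hkm, hc0, fun i j hij => ?_⟩
  obtain ⟨j', rfl⟩ : ∃ j', j = j' + 1 := ⟨j - 1, by omega⟩
  have h1 : |μ.real (E (k i) ∩ E (k (j' + 1))) - c (k i)| ≤ (1 / 2) ^ (j' + 1) := by
    rw [hks]
    exact hnx2 (k j') (j' + 1) (k i) (hkm.monotone (Nat.lt_succ_iff.1 hij))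
  have h2 : |c (k i) - c0| ≤ (1 / 2) ^ i := by
    rcases i with _ | i
    · rw [hk0]
      exact hnx3 _ _
    · rw [hks]
      exact hnx3 _ _
  have h3 : ((1 : ℝ) / 2) ^ (j' + 1) ≤ (1 / 2) ^ i :=
    pow_le_pow_of_le_one (by norm_num) (by norm_num) hij.le
  calc |μ.real (E (k i) ∩ E (k (j' + 1))) - c0|
      = |(μ.real (E (k i) ∩ E (k (j' + 1))) - c (k i)) + (c (k i) - c0)| := by ring_nf
    _ ≤ _ := abs_add_le _ _
    _ ≤ 2 * (1 / 2) ^ i := by linarith

/-- the number of the first `N` events which happen -/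
noncomputable def S (G : ℕ → Set Ω) (N : ℕ) (x : Ω) : ℝ :=
  ∑ i ∈ Finset.range N, (G i).indicator (fun _ => (1 : ℝ)) x

theorem S_mono (G : ℕ → Set Ω) (x : Ω) : Monotone fun N => S G N x := by
  intro N M h
  refine Finset.sum_le_sum_of_subset_of_nonneg (Finset.range_mono h) fun i _ _ => ?_
  exact Set.indicator_nonneg (fun _ _ => zero_le_one) _

theorem S_nonneg (G : ℕ → Set Ω) (N : ℕ) (x : Ω) : 0 ≤ S G N x :=
  Finset.sum_nonneg fun i _ => Set.indicator_nonneg (fun _ _ => zero_le_one) _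

theorem S_le (G : ℕ → Set Ω) (N : ℕ) (x : Ω) : S G N x ≤ N := by
  unfold S
  refine (Finset.sum_le_card_nsmul _ _ 1 fun i _ => ?_).trans ?_
  · exact Set.indicator_le_self' (fun _ _ => zero_le_one) x |>.trans le_rfl
  · simp

theorem measurable_S {G : ℕ → Set Ω} (hG : ∀ n, MeasurableSet (G n)) (N : ℕ) :
    Measurable (S G N) := by
  unfold S
  exact Finset.measurable_sum _ fun i _ => measurable_const.indicator (hG i)

theorem integrable_of_bdd {f : Ω → ℝ} (hf : Measurable f) (C : ℝ) (hC : ∀ x, |f x| ≤ C) :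
    Integrable f μ :=
  Integrable.of_bound hf.aestronglyMeasurable C (ae_of_all _ fun x => by
    rw [Real.norm_eq_abs]
    exact hC x)

theorem integral_S_mul {G : ℕ → Set Ω} (hG : ∀ n, MeasurableSet (G n)) (N M : ℕ) :
    ∫ x, S G N x * S G M x ∂μ =
      ∑ i ∈ Finset.range N, ∑ j ∈ Finset.range M, μ.real (G i ∩ G j) := by
  have h1 : ∀ x, S G N x * S G M x =
      ∑ i ∈ Finset.range N, ∑ j ∈ Finset.range M, (G i ∩ G j).indicator (fun _ => (1 : ℝ)) x := by
    intro x
    unfold S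
    rw [Finset.sum_mul_sum]
    refine Finset.sum_congr rfl fun i _ => Finset.sum_congr rfl fun j _ => ?_
    by_cases h : x ∈ G i <;> by_cases h' : x ∈ G j <;> simp [h, h']
  have hint : ∀ i j, Integrable ((G i ∩ G j).indicator (fun _ => (1 : ℝ))) μ := fun i j =>
    (integrable_const 1).indicator ((hG i).inter (hG j))
  simp only [h1]
  rw [integral_finsetSum _ fun i _ => integrable_finsetSum _ fun j _ => hint i j]
  refine Finset.sum_congr rfl fun i _ => ?_
  rw [integral_finsetSum _ fun j _ => hint i j]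
  refine Finset.sum_congr rfl fun j _ => ?_
  rw [integral_indicator_const _ ((hG i).inter (hG j))]
  simp

/-- The square sums of the deviations. -/
theorem sum_bound {b : ℕ → ℕ → ℝ} (hb : ∀ i j, i ≠ j → |b i j| ≤ 2 * (1 / 2) ^ (min i j))
    (hd : ∀ i, |b i i| ≤ 1) {N M : ℕ} :
    |∑ i ∈ Finset.range N, ∑ j ∈ Finset.range M, b i j| ≤ 4 * N + 4 * M + N := by
  have h1 : ∀ i j, |b i j| ≤ 2 * (1 / 2) ^ i + 2 * (1 / 2) ^ j + if i = j then 1 else 0 := by
    intro i j
    have hi : (0 : ℝ) ≤ (1 / 2) ^ i := by positivity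
    have hj : (0 : ℝ) ≤ (1 / 2) ^ j := by positivity
    by_cases h : i = j
    · subst h
      have := hd i
      rw [if_pos rfl]
      linarith
    · rw [if_neg h]
      refine (hb i j h).trans ?_
      rcases le_total i j with h' | h'
      · rw [min_eq_left h']
        linarith
      · rw [min_eq_right h']
        linarith
  have hgeo : ∀ K : ℕ, ∑ i ∈ Finset.range K, (2 : ℝ) * (1 / 2) ^ i ≤ 4 := by
    intro K
    rw [← Finset.mul_sum, geom_sum_eq (by norm_num)]
    have : (0 : ℝ) ≤ (1 / 2) ^ K := by positivity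
    have h2 : (((1 : ℝ) / 2) ^ K - 1) / (1 / 2 - 1) = 2 * (1 - (1 / 2) ^ K) := by
      field_simp
      ring
    rw [h2]
    linarith
  calc |∑ i ∈ Finset.range N, ∑ j ∈ Finset.range M, b i j|
      ≤ ∑ i ∈ Finset.range N, ∑ j ∈ Finset.range M, |b i j| :=
        (Finset.abs_sum_le_sum_abs _ _).trans
          (Finset.sum_le_sum fun i _ => Finset.abs_sum_le_sum_abs _ _)
    _ ≤ ∑ i ∈ Finset.range N, ∑ j ∈ Finset.range M,
          (2 * (1 / 2) ^ i + 2 * (1 / 2) ^ j + if i = j then (1 : ℝ) else 0) :=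
        Finset.sum_le_sum fun i _ => Finset.sum_le_sum fun j _ => h1 i j
    _ = M * (∑ i ∈ Finset.range N, (2 : ℝ) * (1 / 2) ^ i) +
          N * (∑ j ∈ Finset.range M, (2 : ℝ) * (1 / 2) ^ j) +
          ∑ i ∈ Finset.range N, ∑ j ∈ Finset.range M, (if i = j then (1 : ℝ) else 0) := by
        simp only [Finset.sum_add_distrib, Finset.sum_const, Finset.card_range, nsmul_eq_mul,
          Finset.mul_sum]
    _ ≤ M * 4 + N * 4 + N := by
        refine add_le_add (add_le_add (mul_le_mul_of_nonneg_left (hgeo N) (Nat.cast_nonneg _))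
          (mul_le_mul_of_nonneg_left (hgeo M) (Nat.cast_nonneg _))) ?_
        refine (Finset.sum_le_card_nsmul _ _ 1 fun i _ => ?_).trans (by simp)
        rw [Finset.sum_ite_eq]
        split_ifs <;> norm_num
    _ = 4 * N + 4 * M + N := by ring

theorem integral_sq_le {G : ℕ → Set Ω} (hG : ∀ n, MeasurableSet (G n)) {c : ℝ}
    (hc : c ∈ Icc (0 : ℝ) 1)
    (hGc : ∀ i j, i < j → |μ.real (G i ∩ G j) - c| ≤ 2 * (1 / 2) ^ i) {N M : ℕ} (hN : 1 ≤ N)
    (hNM : N ≤ M) : ∫ x, (S G N x / N - S G M x / M) ^ 2 ∂μ ≤ 36 / N := by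
  set b : ℕ → ℕ → ℝ := fun i j => μ.real (G i ∩ G j) - c with hb
  have hb1 : ∀ i j, i ≠ j → |b i j| ≤ 2 * (1 / 2) ^ (min i j) := by
    intro i j hij
    rcases lt_or_gt_of_ne hij with h | h
    · rw [min_eq_left h.le]
      exact hGc i j h
    · rw [min_eq_right h.le]
      have := hGc j i h
      simp only [hb]
      rwa [inter_comm]
  have hb2 : ∀ i, |b i i| ≤ 1 := by
    intro i
    have h1 := measureReal_mem (μ := μ) (G i ∩ G i)
    simp only [hb]
    rw [abs_le]
    constructor <;> linarith [h1.1, h1.2, hc.1, hc.2]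
  have hB := fun N M : ℕ => sum_bound hb1 hb2 (N := N) (M := M)
  set B : ℕ → ℕ → ℝ := fun N M => ∑ i ∈ Finset.range N, ∑ j ∈ Finset.range M, b i j with hBdef
  have hA : ∀ N M : ℕ, ∫ x, S G N x * S G M x ∂μ = N * M * c + B N M := by
    intro N M
    rw [integral_S_mul hG]
    have h1 : ∀ i j, μ.real (G i ∩ G j) = c + b i j := fun i j => by simp [hb]
    simp only [h1, Finset.sum_add_distrib, Finset.sum_const, Finset.card_range, nsmul_eq_mul, hBdef]
    ring
  have hN0 : (0 : ℝ) < N := by exact_mod_cast hN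
  have hM0 : (0 : ℝ) < M := by exact_mod_cast (hN.trans hNM)
  have hNM' : (N : ℝ) ≤ M := by exact_mod_cast hNM
  have hbd : ∀ K L : ℕ, ∀ x, |S G K x * S G L x| ≤ K * L := by
    intro K L x
    rw [abs_of_nonneg (mul_nonneg (S_nonneg _ _ _) (S_nonneg _ _ _))]
    exact mul_le_mul (S_le _ _ _) (S_le _ _ _) (S_nonneg _ _ _) (Nat.cast_nonneg _)
  have hint : ∀ K L : ℕ, Integrable (fun x => S G K x * S G L x) μ := fun K L =>
    integrable_of_bdd ((measurable_S hG K).mul (measurable_S hG L)) _ (hbd K L)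
  have e1 : ∫ x, (S G N x / N - S G M x / M) ^ 2 ∂μ =
      (N * N * c + B N N) / (N * N) - 2 * ((N * M * c + B N M) / (N * M)) +
        (M * M * c + B M M) / (M * M) := by
    rw [← hA, ← hA, ← hA]
    have e2 : ∀ x, (S G N x / N - S G M x / M) ^ 2 = (S G N x * S G N x) * (1 / (N * N : ℝ)) -
        (S G N x * S G M x) * (2 / (N * M : ℝ)) + (S G M x * S G M x) * (1 / (M * M : ℝ)) := by
      intro x
      field_simp
      ring
    simp only [e2]
    rw [integral_add, integral_sub, integral_mul_const, integral_mul_const, integral_mul_const]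
    · ring
    · exact (hint _ _).mul_const _
    · exact (hint _ _).mul_const _
    · exact ((hint _ _).mul_const _).sub ((hint _ _).mul_const _)
    · exact (hint _ _).mul_const _
  rw [e1]
  have e3 : (N * N * c + B N N) / (N * N) - 2 * ((N * M * c + B N M) / (N * M)) +
        (M * M * c + B M M) / (M * M) = B N N / (N * N) - 2 * (B N M / (N * M)) +
        B M M / (M * M) := by
    field_simp
    ring
  rw [e3]
  have q1 : B N N / (N * N) ≤ 9 / N := by
    rw [div_le_div_iff₀ (by positivity) hN0]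
    have := (abs_le.1 (hB N N)).2
    nlinarith
  have q2 : B M M / (M * M) ≤ 9 / N := by
    have h1 : B M M / (M * M) ≤ 9 / M := by
      rw [div_le_div_iff₀ (by positivity) hM0]
      have := (abs_le.1 (hB M M)).2
      nlinarith
    exact h1.trans (div_le_div_of_nonneg_left (by norm_num) hN0 hNM')
  have q3 : -(B N M / (N * M)) ≤ 9 / N := by
    rw [← neg_div, div_le_div_iff₀ (by positivity) hN0]
    have h1 := (abs_le.1 (hB N M)).1
    have h2 : -B N M ≤ 9 * M := by linarith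
    nlinarith
  have : (36 : ℝ) / N = 9 / N + 2 * (9 / N) + 9 / N := by ring
  rw [this]
  linarith

theorem tail {G : ℕ → Set Ω} (hG : ∀ n, MeasurableSet (G n)) {c : ℝ} (hc : c ∈ Icc (0 : ℝ) 1)
    (hGc : ∀ i j, i < j → |μ.real (G i ∩ G j) - c| ≤ 2 * (1 / 2) ^ i) :
    ∀ᵐ x ∂μ, ∃ l : ℝ, Tendsto (fun N : ℕ => S G N x / N) atTop (𝓝 l) := by
  let m : ℕ → ℕ := fun n => (n + 1) ^ 6
  let D : ℕ → Ω → ℝ := fun n x => S G (m n) x / (m n : ℕ) - S G (m (n + 1)) x / (m (n + 1) : ℕ)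
  let B : ℕ → Set Ω := fun n => {x | (1 / ((n : ℝ) + 1) ^ 4) ≤ (D n x) ^ 2}
  have hm1 : ∀ n, 1 ≤ m n := fun n => Nat.one_le_pow _ _ (Nat.succ_pos n)
  have hmm : Monotone m := fun a b h => Nat.pow_le_pow_left (Nat.succ_le_succ h) _
  have hDm : ∀ n, Measurable (D n) := fun n =>
    ((measurable_S hG _).div_const _).sub ((measurable_S hG _).div_const _)
  have hDb : ∀ n x, |(D n x) ^ 2| ≤ 4 := by
    intro n x
    have hfr : ∀ K : ℕ, 1 ≤ K → S G K x / K ∈ Icc (0 : ℝ) 1 := fun K hK => by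
      have hK0 : (0 : ℝ) < K := by exact_mod_cast hK
      exact ⟨div_nonneg (S_nonneg _ _ _) hK0.le, (div_le_one hK0).2 (S_le _ _ _)⟩
    have h1 := hfr _ (hm1 n)
    have h2 := hfr _ (hm1 (n + 1))
    rw [abs_of_nonneg (sq_nonneg _)]
    have h3 : D n x ∈ Icc (-1 : ℝ) 1 := ⟨by
      show -1 ≤ S G (m n) x / (m n : ℕ) - S G (m (n + 1)) x / (m (n + 1) : ℕ)
      linarith [h1.1, h2.2], by
      show S G (m n) x / (m n : ℕ) - S G (m (n + 1)) x / (m (n + 1) : ℕ) ≤ 1
      linarith [h1.2, h2.1]⟩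
    nlinarith [h3.1, h3.2]
  have hBle : ∀ n, μ (B n) ≤ ENNReal.ofReal (36 / ((n : ℝ) + 1) ^ 2) := by
    intro n
    have h1 := mul_meas_ge_le_integral_of_nonneg (μ := μ) (f := fun x => (D n x) ^ 2)
      (ae_of_all _ fun x => sq_nonneg _) (integrable_of_bdd ((hDm n).pow_const 2) 4 (hDb n))
      (1 / ((n : ℝ) + 1) ^ 4)
    have h2 : ∫ x, (D n x) ^ 2 ∂μ ≤ 36 / (m n : ℕ) :=
      integral_sq_le hG hc hGc (hm1 n) (hmm (Nat.le_succ n))
    have h3 : ((m n : ℕ) : ℝ) = ((n : ℝ) + 1) ^ 6 := by simp [m]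
    rw [h3] at h2
    have hpos : (0 : ℝ) < (n : ℝ) + 1 := by positivity
    have h4 : μ.real (B n) ≤ 36 / ((n : ℝ) + 1) ^ 2 := by
      have h5 := h1.trans h2
      have h6 : μ.real (B n) = ((n : ℝ) + 1) ^ 4 * (1 / ((n : ℝ) + 1) ^ 4 * μ.real (B n)) := by
        field_simp
      rw [h6]
      calc ((n : ℝ) + 1) ^ 4 * (1 / ((n : ℝ) + 1) ^ 4 * μ.real (B n))
          ≤ ((n : ℝ) + 1) ^ 4 * (36 / ((n : ℝ) + 1) ^ 6) :=
            mul_le_mul_of_nonneg_left h5 (by positivity)
        _ = 36 / ((n : ℝ) + 1) ^ 2 := by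
            field_simp
    rw [← ofReal_measureReal]
    exact ENNReal.ofReal_le_ofReal h4
  have hsum : ∑' n, μ (B n) ≠ ⊤ := by
    refine ne_top_of_le_ne_top ?_ (ENNReal.tsum_le_tsum hBle)
    have hs : Summable fun n : ℕ => 36 / ((n : ℝ) + 1) ^ 2 := by
      have h1 : Summable fun n : ℕ => 1 / (((n + 1 : ℕ) : ℝ)) ^ 2 :=
        (summable_nat_add_iff 1).2 (Real.summable_one_div_nat_pow.2 (by norm_num))
      have h2 := h1.mul_left 36
      refine h2.congr fun n => ?_
      push_cast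
      ring
    exact hs.tsum_ofReal_ne_top
  filter_upwards [ae_eventually_notMem hsum] with x hx
  -- the subsequence converges
  have hcau : ∃ l, Tendsto (fun n => S G (m n) x / (m n : ℕ)) atTop (𝓝 l) := by
    obtain ⟨n0, hn0⟩ := eventually_atTop.1 hx
    have h1 : ∀ n, n0 ≤ n → dist (S G (m n) x / (m n : ℕ)) (S G (m (n + 1)) x / (m (n + 1) : ℕ)) ≤
        1 / ((n : ℝ) + 1) ^ 2 := by
      intro n hn
      have h2 := hn0 n hn
      simp only [B, mem_ofPred_eq, not_le] at h2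
      rw [Real.dist_eq]
      have h3 : (D n x) ^ 2 ≤ (1 / ((n : ℝ) + 1) ^ 2) ^ 2 := by
        refine h2.le.trans (le_of_eq ?_)
        rw [div_pow, one_pow, ← pow_mul]
      exact abs_le_of_sq_le_sq h3 (by positivity)
    have h4 : CauchySeq fun n => S G (m (n + n0)) x / (m (n + n0) : ℕ) := by
      refine cauchySeq_of_dist_le_of_summable (fun n : ℕ => 1 / (((n + n0 : ℕ) : ℝ) + 1) ^ 2)
        (fun n => ?_) ?_
      · have := h1 (n + n0) (Nat.le_add_left _ _)
        rw [show (n + 1) + n0 = (n + n0) + 1 by ring]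
        exact this
      · have h5 : Summable fun n : ℕ => 1 / (((n + (n0 + 1) : ℕ) : ℝ)) ^ 2 :=
          (summable_nat_add_iff (n0 + 1)).2 (Real.summable_one_div_nat_pow.2 (by norm_num))
        refine h5.congr fun n => ?_
        push_cast
        ring
    obtain ⟨l, hl⟩ := cauchySeq_tendsto_of_complete h4
    exact ⟨l, (tendsto_add_atTop_iff_nat n0).1 hl⟩
  obtain ⟨l, hl⟩ := hcau
  refine ⟨l, tendsto_div_of_monotone_of_exists_subseq_tendsto_div _ l (S_mono G x) fun a ha => ?_⟩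
  refine ⟨m, ?_, ?_, hl⟩
  · have h1 : Tendsto (fun n : ℕ => (((n : ℝ) + 2) / ((n : ℝ) + 1)) ^ 6) atTop (𝓝 (1 ^ 6)) := by
      refine Tendsto.pow ?_ 6
      have h2 : Tendsto (fun n : ℕ => 1 + 1 / ((n : ℝ) + 1)) atTop (𝓝 (1 + 0)) :=
        tendsto_const_nhds.add tendsto_one_div_add_atTop_nhds_zero_nat
      rw [add_zero] at h2
      refine h2.congr fun n => ?_
      have : (0 : ℝ) < (n : ℝ) + 1 := by positivity
      field_simp
      ring
    rw [one_pow] at h1
    filter_upwards [h1.eventually (gt_mem_nhds ha)] with n hn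
    have hpos : (0 : ℝ) < ((n : ℝ) + 1) ^ 6 := by positivity
    rw [div_pow, div_lt_iff₀ hpos] at hn
    simp only [m]
    push_cast
    have e : (n : ℝ) + 1 + 1 = n + 2 := by ring
    rw [e]
    exact hn.le
  · refine tendsto_atTop_mono (fun n => ?_) tendsto_id
    calc n ≤ n + 1 := Nat.le_succ n
      _ = (n + 1) ^ 1 := (pow_one _).symm
      _ ≤ (n + 1) ^ 6 := Nat.pow_le_pow_right (Nat.succ_pos n) (by norm_num)

/-- **Komlós' theorem for events.** -/
theorem komlos {E : ℕ → Set Ω} (hE : ∀ n, MeasurableSet (E n)) : ∃ k : ℕ → ℕ, StrictMono k ∧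
    ∀ᵐ x ∂μ, ∃ l : ℝ, Tendsto (fun N : ℕ => S (fun i => E (k i)) N x / N) atTop (𝓝 l) := by
  obtain ⟨k, c, hk, hc, h⟩ := exists_subseq (μ := μ) E
  exact ⟨k, hk, tail (fun n => hE (k n)) hc h⟩

end Pool.Agent.Q307.Osc
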