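import Mathlib
import Pool.Agent.TH773.PSet.Prod
import Pool.Agent.Q307.Osc.Defs
import Pool.Agent.Q307.RF.Pol

/-!
# After adding many random reals few null sets do not cover Cantor space
-/

set_option autoImplicit false
set_option linter.unusedSectionVars false

namespace Pool.Agent.Q307.Osc

open Cardinal Pool.Agent.TH773.PSet Pool.Agent.Q307.RF MeasureTheory Set Filter Topology

variable {I : Type}

/-- The name of the `j`-th random real. -/
def rnd (j : I) : RName (Random I) := fun n => AE (coinProduct I) (allEq j true {n})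

theorem meets_rnd (j : I) (n : ℕ) : meets (rnd j n) = AE (coinProduct I) (allEq j true {n}) :=
  meets_AE (dep_allEq _ _ _).meas

/-- The event that `s` is an initial segment of the `j`-th random real. -/
def cyl (j : I) (s : List Bool) : Set (I × ℕ → Bool) :=
  {x | ∀ i < s.length, x (j, i) = s.getD i false}

theorem dep_cyl (j : I) (s : List Bool) : Dep {t : I × ℕ | t.1 = j} (cyl j s) := by
  have : cyl j s = ⋂ i : ℕ, ⋂ (_ : i < s.length), allEq j (s.getD i false) {i} := by
    ext x
    simp [cyl, allEq]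
  rw [this]
  exact Dep.iInter fun i => Dep.iInter fun _ => dep_allEq _ _ _

theorem measure_cyl (j : I) (s : List Bool) :
    coinProduct I (cyl j s) = (2 : ENNReal)⁻¹ ^ s.length := by
  classical
  let S : Finset (I × ℕ) := (Finset.range s.length).image fun n => (j, n)
  have hs : cyl j s = Set.pi S fun t => {s.getD t.2 false} := by
    ext x
    simp [cyl, S, Set.mem_pi]
  have hcard : S.card = s.length := by
    rw [Finset.card_image_of_injective, Finset.card_range]
    intro a b h
    exact congrArg Prod.snd h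
  rw [hs, coinProduct, Measure.infinitePi_pi _ fun _ _ => measurableSet_singleton _]
  simp only [coin_singleton, Finset.prod_const, hcard]

theorem initSeg_AE (j : I) (s : List Bool) : InitSeg s (rnd j) = AE (coinProduct I) (cyl j s) := by
  unfold InitSeg
  have hm : ∀ i, MeasurableSet (allEq j true {i} : Set (I × ℕ → Bool)) := fun i =>
    (dep_allEq _ _ _).meas
  simp only [meets_rnd, fground_AE, fimp_AE (hm _) (MeasurableSet.const _),
    fimp_AE (MeasurableSet.const _) (hm _), fand_AE, fall_AE]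
  congr 1
  ext x
  simp only [mem_inter_iff, mem_iInter, mem_union, mem_compl_iff, mem_ofPred_eq, cyl, allEq,
    Finset.mem_singleton, forall_eq]
  refine forall_congr' fun i => forall_congr' fun _ => ?_
  cases s.getD i false <;> cases x (j, i) <;> simp

/-- The main estimate: a random real which is independent of `r` and of the code is outside the
null set. -/
theorem ae_notMem {Z : ℕ → List Bool → Set (I × ℕ → Bool)} {T : Set (I × ℕ)}
    (hZ : ∀ n s, Dep T (Z n s)) {r : Set (I × ℕ → Bool)} (hr : Dep T r) (j : I)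
    (hj : ∀ t ∈ T, t.1 ≠ j)
    (h1 : ∀ᵐ x ∂(coinProduct I), x ∈ r → (∀ n, ∃ s, x ∈ Z n s) ∧
      ∀ n s s', x ∈ Z n s → x ∈ Z n s' → s = s')
    (h2 : ∀ᵐ x ∂(coinProduct I), x ∈ r → ∀ L : List (List Bool),
      (∀ i < L.length, x ∈ Z i (L.getD i [])) → (L.map fun s => (1 / 2 : ℝ) ^ s.length).sum ≤ 1) :
    ∀ᵐ x ∂(coinProduct I), x ∈ r → ∃ N, ∀ n, N ≤ n → ∀ s, x ∈ Z n s → x ∉ cyl j s := by
  classical
  have hdisj : Disjoint T {t : I × ℕ | t.1 = j} := Set.disjoint_left.2 fun t h1 h2 => hj t h1 h2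
  let A : ℕ → Set (I × ℕ → Bool) := fun n => ⋃ s, (r ∩ Z n s) ∩ cyl j s
  have hA : ∀ n, coinProduct I (A n) ≤
      ∑' s : List Bool, coinProduct I (r ∩ Z n s) * (2 : ENNReal)⁻¹ ^ s.length := by
    intro n
    refine (measure_iUnion_le _).trans (ENNReal.tsum_le_tsum fun s => ?_)
    rw [dep_indep hdisj (hr.inter (hZ n s)) (dep_cyl j s), measure_cyl]
  have hsum : ∑' n, coinProduct I (A n) ≠ ⊤ := by
    refine ne_top_of_le_ne_top ENNReal.one_ne_top ((ENNReal.tsum_le_tsum hA).trans ?_)
    have e1 : ∀ n s, coinProduct I (r ∩ Z n s) * (2 : ENNReal)⁻¹ ^ s.length =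
        ∫⁻ x in r, (Z n s).indicator (fun _ => (2 : ENNReal)⁻¹ ^ s.length) x ∂(coinProduct I) := by
      intro n s
      rw [lintegral_indicator_const (hZ n s).meas, Measure.restrict_apply (hZ n s).meas, mul_comm,
        inter_comm]
    simp only [e1]
    have hmeas : ∀ n s, Measurable
        ((Z n s).indicator (fun _ => (2 : ENNReal)⁻¹ ^ s.length)) := fun n s =>
      measurable_const.indicator (hZ n s).meas
    have e2 : (∑' n, ∑' s : List Bool, ∫⁻ x in r,
          (Z n s).indicator (fun _ => (2 : ENNReal)⁻¹ ^ s.length) x ∂(coinProduct I)) =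
        ∫⁻ x in r, ∑' n, ∑' s : List Bool,
          (Z n s).indicator (fun _ => (2 : ENNReal)⁻¹ ^ s.length) x ∂(coinProduct I) := by
      rw [lintegral_tsum fun n => (Measurable.tsum fun s => hmeas n s).aemeasurable]
      refine tsum_congr fun n => ?_
      rw [lintegral_tsum fun s => (hmeas n s).aemeasurable]
    rw [e2]
    have e3 : ∫⁻ x in r, ∑' n, ∑' s : List Bool,
          (Z n s).indicator (fun _ => (2 : ENNReal)⁻¹ ^ s.length) x ∂(coinProduct I) ≤
        ∫⁻ _ in r, 1 ∂(coinProduct I) := by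
      refine lintegral_mono_ae ?_
      rw [ae_restrict_iff' hr.meas]
      filter_upwards [h1, h2] with x hx1 hx2 hxr
      obtain ⟨hx3, hx4⟩ := hx1 hxr
      choose s hs using hx3
      have e4 : ∀ n, ∑' t : List Bool,
          (Z n t).indicator (fun _ => (2 : ENNReal)⁻¹ ^ t.length) x = (2 : ENNReal)⁻¹ ^ (s n).length := by
        intro n
        rw [tsum_eq_single (s n)]
        · rw [indicator_of_mem (hs n)]
        · intro t ht
          rw [indicator_of_notMem]
          intro hxt
          exact ht (hx4 n t (s n) hxt (hs n))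
      simp only [e4]
      rw [ENNReal.tsum_eq_iSup_nat]
      refine iSup_le fun M => ?_
      have h3 := hx2 hxr (List.ofFn fun i : Fin M => s i) (by
        intro i hi
        rw [List.length_ofFn] at hi
        rw [List.getD_eq_getElem _ _ (by simpa using hi), List.getElem_ofFn]
        exact hs i)
      rw [List.map_ofFn, List.sum_ofFn] at h3
      simp only [Function.comp] at h3
      rw [Fin.sum_univ_eq_sum_range (fun i => (1 / 2 : ℝ) ^ (s i).length) M] at h3
      have h4 : ∀ i, (2 : ENNReal)⁻¹ ^ (s i).length =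
          ENNReal.ofReal ((1 / 2 : ℝ) ^ (s i).length) := by
        intro i
        rw [ENNReal.ofReal_pow (by norm_num)]
        congr 1
        rw [one_div, ENNReal.ofReal_inv_of_pos (by norm_num)]
        simp
      simp only [h4]
      rw [← ENNReal.ofReal_sum_of_nonneg fun i _ => by positivity]
      rw [← ENNReal.ofReal_one]
      exact ENNReal.ofReal_le_ofReal h3
    refine e3.trans ?_
    rw [setLIntegral_one]
    exact prob_le_one
  filter_upwards [ae_eventually_notMem hsum] with x hx hxr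
  obtain ⟨N, hN⟩ := eventually_atTop.1 hx
  refine ⟨N, fun n hn s hs hc => hN n hn ?_⟩
  exact mem_iUnion.2 ⟨s, ⟨hxr, hs⟩, hc⟩

/-- Fewer than `|I|` null sets do not cover Cantor space in the extension by `𝔹(I)`, if `I` is
uncountable. -/
theorem not_covNullLe {Y : Type} (hY : #Y < #I) (hI : ℵ₀ < #I) (p : Random I) :
    p ∈ fnot (CovNullLe (Random I) Y) := by
  classical
  intro q hq hcov
  obtain ⟨r, hr, E, hcode, hall⟩ := mem_fex.1 hcov q le_rfl
  -- representation of the codes
  have hrep : ∀ N : Set (Random I), ∃ X : Set (I × ℕ → Bool), MeasurableSet X ∧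
      meets N = AE (coinProduct I) X := by
    intro N
    obtain ⟨S, hS, hS'⟩ := exists_meets (μ := coinProduct I) N
    exact ⟨⋃ j, S j, MeasurableSet.iUnion fun j => measurable_S hS j, hS'⟩
  choose Z hZm hZ using fun (y : Y) (n : ℕ) (s : List Bool) => hrep (E y n s)
  choose T hTc hT using fun (y : Y) (n : ℕ) (s : List Bool) => exists_countable (hZm y n s)
  obtain ⟨Tr, hTrc, hTr⟩ := exists_countable r.2.1
  -- a random real which is not mentioned
  have hcard : #(⋃ y : Y, ⋃ n : ℕ, ⋃ s : List Bool, (Prod.fst '' T y n s) : Set I) < #I := by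
    have h1 : ∀ y : Y, #(⋃ n : ℕ, ⋃ s : List Bool, (Prod.fst '' T y n s) : Set I) ≤ ℵ₀ := by
      intro y
      rw [Cardinal.le_aleph0_iff_set_countable]
      exact countable_iUnion fun n => countable_iUnion fun s => (hTc y n s).image _
    have h2 : #(⋃ y : Y, ⋃ n : ℕ, ⋃ s : List Bool, (Prod.fst '' T y n s) : Set I) ≤ #Y * ℵ₀ := by
      refine (Cardinal.mk_iUnion_le_sum_mk).trans ?_
      refine (Cardinal.sum_le_sum _ (fun _ => ℵ₀) h1).trans ?_
      rw [Cardinal.sum_const']
    exact h2.trans_lt (Cardinal.mul_lt_of_lt hI.le hY hI)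
  have hcard2 : #((⋃ y : Y, ⋃ n : ℕ, ⋃ s : List Bool, (Prod.fst '' T y n s)) ∪
      (Prod.fst '' Tr) : Set I) < #I := by
    refine (Cardinal.mk_union_le _ _).trans_lt (Cardinal.add_lt_of_lt hI.le hcard ?_)
    exact lt_of_le_of_lt (Cardinal.le_aleph0_iff_set_countable.2 (hTrc.image _)) hI
  obtain ⟨j, hj⟩ : ∃ j, j ∉ ((⋃ y : Y, ⋃ n : ℕ, ⋃ s : List Bool, (Prod.fst '' T y n s)) ∪
      (Prod.fst '' Tr) : Set I) := by
    by_contra hcon
    push Not at hcon
    rw [Set.eq_univ_of_forall hcon, Cardinal.mk_univ] at hcard2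
    exact absurd hcard2 (lt_irrefl _)
  -- the statement about this real
  obtain ⟨s, hs, y, hsy⟩ := mem_fex.1 (hall (rnd j)) r le_rfl
  have hcy := hcode y
  have hfun : ∀ᵐ x ∂(coinProduct I), x ∈ r.1 → (∀ n, ∃ s, x ∈ Z y n s) ∧
      ∀ n s s', x ∈ Z y n s → x ∈ Z y n s' → s = s' := by
    have h1 := hcy.1
    have e1 : IsFun (E y) = AE (coinProduct I) ({x | ∀ n, ∃ m, x ∈ Z y n m} ∩
        {x | ∀ n m m', x ∈ Z y n m → x ∈ Z y n m' → m = m'}) := by
      unfold IsFun
      have e1 : ∀ n : ℕ, (fex fun m => meets (E y n m)) = AE (coinProduct I) (⋃ m, Z y n m) :=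
        fun n => by
          simp only [hZ]
          exact fex_AE fun m => hZm y n m
      have e2 : ∀ (n : ℕ) (m m' : List Bool),
          fimp (fand (meets (E y n m)) (meets (E y n m'))) (fground (m = m')) =
          AE (coinProduct I) ((Z y n m ∩ Z y n m')ᶜ ∪ {_x | m = m'}) := fun n m m' => by
        rw [hZ, hZ, fand_AE, fground_AE, fimp_AE ((hZm _ _ _).inter (hZm _ _ _))
          (MeasurableSet.const _)]
      simp only [e1, e2, fall_AE, fand_AE]
      congr 1
      ext x
      simp only [mem_inter_iff, mem_iInter, mem_iUnion, mem_union, mem_compl_iff, mem_ofPred_eq]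
      refine and_congr Iff.rfl ?_
      refine forall_congr' fun n => forall_congr' fun m => forall_congr' fun m' => ?_
      tauto
    rw [e1, mem_AE_iff] at h1
    exact h1
  have hsum : ∀ᵐ x ∂(coinProduct I), x ∈ r.1 → ∀ L : List (List Bool),
      (∀ i < L.length, x ∈ Z y i (L.getD i [])) →
        (L.map fun s => (1 / 2 : ℝ) ^ s.length).sum ≤ 1 := by
    have h1 := hcy.2
    have e2 : ∀ L : List (List Bool),
        fimp (fall fun i : ℕ => fall fun _ : i < L.length => meets (E y i (L.getD i [])))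
          (fground ((L.map fun s => (1 / 2 : ℝ) ^ s.length).sum ≤ 1)) =
        AE (coinProduct I) ((⋂ i : ℕ, ⋂ (_ : i < L.length), Z y i (L.getD i []))ᶜ ∪
          {_x | (L.map fun s => (1 / 2 : ℝ) ^ s.length).sum ≤ 1}) := fun L => by
      simp only [hZ, fall_AE, fground_AE]
      rw [fimp_AE (MeasurableSet.iInter fun i => MeasurableSet.iInter fun _ => hZm _ _ _)
        (MeasurableSet.const _)]
    simp only [e2, fall_AE] at h1
    rw [mem_AE_iff] at h1
    filter_upwards [h1] with x hx hxr L hL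
    have h3 := mem_iInter.1 (hx hxr) L
    rcases h3 with h3 | h3
    · exact absurd (mem_iInter₂.2 hL) h3
    · exact h3
  have hdep : Dep ((⋃ n : ℕ, ⋃ s : List Bool, T y n s) ∪ Tr) r.1 :=
    hTr.mono subset_union_right
  have hdepZ : ∀ n s, Dep ((⋃ n : ℕ, ⋃ s : List Bool, T y n s) ∪ Tr) (Z y n s) := fun n s =>
    (hT y n s).mono fun t ht => Or.inl (mem_iUnion₂.2 ⟨n, s, ht⟩)
  have hj' : ∀ t ∈ ((⋃ n : ℕ, ⋃ s : List Bool, T y n s) ∪ Tr), t.1 ≠ j := by
    rintro t (ht | ht) rfl
    · obtain ⟨n, s, h⟩ := mem_iUnion₂.1 ht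
      exact hj (Or.inl (mem_iUnion.2 ⟨y, mem_iUnion₂.2 ⟨n, s, ⟨t, h, rfl⟩⟩⟩))
    · exact hj (Or.inr ⟨t, ht, rfl⟩)
  have hout := ae_notMem hdepZ hdep j hj' hfun hsum
  -- the real is in the null set
  have hin : ∀ᵐ x ∂(coinProduct I), x ∈ s.1 → ∀ N, ∃ n, N ≤ n ∧ ∃ t, x ∈ Z y n t ∧
      x ∈ cyl j t := by
    have h1 : ∀ N : ℕ, (fex fun n : ℕ => fex fun _ : N ≤ n => fex fun t : List Bool =>
        fand (meets (E y n t)) (InitSeg t (rnd j))) =
        AE (coinProduct I) (⋃ n : ℕ, ⋃ (_ : N ≤ n), ⋃ t : List Bool, (Z y n t ∩ cyl j t)) := by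
      intro N
      have hm : ∀ n t, MeasurableSet (Z y n t ∩ cyl j t) := fun n t =>
        (hZm y n t).inter (dep_cyl j t).meas
      simp only [hZ, initSeg_AE, fand_AE]
      have e3 : ∀ n : ℕ, (fex fun t : List Bool => AE (coinProduct I) (Z y n t ∩ cyl j t)) =
          AE (coinProduct I) (⋃ t : List Bool, (Z y n t ∩ cyl j t)) := fun n => fex_AE (hm n)
      have e4 : ∀ n : ℕ, (fex fun _ : N ≤ n => AE (coinProduct I)
          (⋃ t : List Bool, (Z y n t ∩ cyl j t))) =
          AE (coinProduct I) (⋃ (_ : N ≤ n), ⋃ t : List Bool, (Z y n t ∩ cyl j t)) := fun n =>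
        fex_AE fun _ => MeasurableSet.iUnion fun t => hm n t
      simp only [e3, e4]
      exact fex_AE fun n => MeasurableSet.iUnion fun _ => MeasurableSet.iUnion fun t => hm n t
    have h2 : s ∈ fall fun N : ℕ => AE (coinProduct I)
        (⋃ n : ℕ, ⋃ (_ : N ≤ n), ⋃ t : List Bool, (Z y n t ∩ cyl j t)) := by
      intro N
      beta_reduce
      rw [← h1]
      exact hsy N
    rw [fall_AE, mem_AE_iff] at h2
    filter_upwards [h2] with x hx hxs N
    have h3 := mem_iInter.1 (hx hxs) N
    obtain ⟨n, hn, t, ht⟩ : ∃ n, ∃ (_ : N ≤ n), ∃ t, x ∈ Z y n t ∩ cyl j t := by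
      simpa only [mem_iUnion] using h3
    exact ⟨n, hn, t, ht.1, ht.2⟩
  have hsr : ∀ᵐ x ∂(coinProduct I), x ∈ s.1 → x ∈ r.1 := by
    rw [le_iff_AE, mem_AE_iff] at hs
    exact hs
  refine s.2.2 (measure_eq_zero_iff_ae_notMem.2 ?_)
  filter_upwards [hin, hsr, hout] with x h1 h2 h3 hxs
  obtain ⟨N, hN⟩ := h3 (h2 hxs)
  obtain ⟨n, hn, t, ht, ht'⟩ := h1 hxs N
  exact hN n hn t ht ht'

end Pool.Agent.Q307.Osc
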