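import Mathlib
import Pool.Agent.Q307.Osc.Defs
import Pool.Agent.Q307.Osc.Komlos
import Pool.Agent.Q307.RF.Gen

/-!
# The ground model sets witness that the oscillation reaping number is small
-/

set_option autoImplicit false
set_option linter.unusedSectionVars false

namespace Pool.Agent.Q307.Osc

open Cardinal Pool.Agent.TH773.PSet Pool.Agent.Q307.RF MeasureTheory Set Filter Topology

variable {Ω : Type} [MeasurableSpace Ω] {μ : Measure Ω}

theorem measurableSet_trace {X : ℕ → Set Ω} (hX : ∀ n, MeasurableSet (X n)) (n : ℕ)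
    (F : Finset ℕ) : MeasurableSet {x | F ⊆ Finset.range n ∧ ∀ k < n, (k ∈ F ↔ x ∈ X k)} := by
  have h : {x | F ⊆ Finset.range n ∧ ∀ k < n, (k ∈ F ↔ x ∈ X k)} =
      {_x | F ⊆ Finset.range n} ∩ ⋂ k : ℕ, ⋂ (_ : k < n), {x | k ∈ F ↔ x ∈ X k} := by
    ext x
    simp
  rw [h]
  refine (MeasurableSet.const _).inter (MeasurableSet.iInter fun k => MeasurableSet.iInter fun _ =>
    ?_)
  by_cases hk : k ∈ F
  · simpa [hk] using hX k
  · have : {x | k ∈ F ↔ x ∈ X k} = (X k)ᶜ := by
      ext x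
      simp [hk]
    rw [this]
    exact (hX k).compl

theorem trace_AE {A : RName (Cond μ)} {X : ℕ → Set Ω} (hX : ∀ n, MeasurableSet (X n))
    (hA : ∀ n, meets (A n) = AE μ (X n)) (n : ℕ) (F : Finset ℕ) :
    Trace A n F = AE μ {x | F ⊆ Finset.range n ∧ ∀ k < n, (k ∈ F ↔ x ∈ X k)} := by
  unfold Trace
  simp only [hA, fground_AE, fimp_AE (hX _) (MeasurableSet.const _),
    fimp_AE (MeasurableSet.const _) (hX _), fand_AE, fall_AE]
  congr 1
  ext x
  simp only [mem_inter_iff, mem_iInter, mem_union, mem_compl_iff, mem_ofPred_eq]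
  refine and_congr Iff.rfl (forall_congr' fun k => forall_congr' fun _ => ?_)
  tauto

/-- The statement about the outcome `x` which says that the density does not oscillate. -/
def Good (X Y : ℕ → Set Ω) (x : Ω) : Prop :=
  ∀ m : ℕ, ∃ N : ℕ, ∀ n : ℕ, N ≤ n → ∀ n' : ℕ, N ≤ n' → ∀ F G F' G' : Finset ℕ,
    ((F ⊆ Finset.range n ∧ ∀ k < n, (k ∈ F ↔ x ∈ X k)) ∧
      (G ⊆ Finset.range n ∧ ∀ k < n, (k ∈ G ↔ x ∈ Y k))) ∧
    ((F' ⊆ Finset.range n' ∧ ∀ k < n', (k ∈ F' ↔ x ∈ X k)) ∧
      (G' ⊆ Finset.range n' ∧ ∀ k < n', (k ∈ G' ↔ x ∈ Y k))) →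
    |((F ∩ G).card : ℝ) / G.card - ((F' ∩ G').card : ℝ) / G'.card| ≤ 1 / ((m : ℝ) + 1)

theorem nonOsc_of {A B : RName (Cond μ)} {X Y : ℕ → Set Ω} (hX : ∀ n, MeasurableSet (X n))
    (hA : ∀ n, meets (A n) = AE μ (X n)) (hY : ∀ n, MeasurableSet (Y n))
    (hB : ∀ n, meets (B n) = AE μ (Y n)) (h : ∀ᵐ x ∂μ, Good X Y x) (p : Cond μ) :
    p ∈ NonOsc A B := by
  unfold NonOsc
  have e : ∀ (m n n' : ℕ) (F G F' G' : Finset ℕ),
      fimp (fand (fand (Trace A n F) (Trace B n G)) (fand (Trace A n' F') (Trace B n' G')))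
        (fground (|((F ∩ G).card : ℝ) / G.card - ((F' ∩ G').card : ℝ) / G'.card| ≤
              1 / ((m : ℝ) + 1))) =
      AE μ ((({x | F ⊆ Finset.range n ∧ ∀ k < n, (k ∈ F ↔ x ∈ X k)} ∩
        {x | G ⊆ Finset.range n ∧ ∀ k < n, (k ∈ G ↔ x ∈ Y k)}) ∩
        ({x | F' ⊆ Finset.range n' ∧ ∀ k < n', (k ∈ F' ↔ x ∈ X k)} ∩
        {x | G' ⊆ Finset.range n' ∧ ∀ k < n', (k ∈ G' ↔ x ∈ Y k)}))ᶜ ∪
        {_x | |((F ∩ G).card : ℝ) / G.card - ((F' ∩ G').card : ℝ) / G'.card| ≤
              1 / ((m : ℝ) + 1)}) := by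
    intro m n n' F G F' G'
    rw [trace_AE hX hA, trace_AE hX hA, trace_AE hY hB, trace_AE hY hB, fground_AE, fand_AE,
      fand_AE, fand_AE, fimp_AE]
    · exact ((measurableSet_trace hX _ _).inter (measurableSet_trace hY _ _)).inter
        ((measurableSet_trace hX _ _).inter (measurableSet_trace hY _ _))
    · exact MeasurableSet.const _
  simp only [e, fall_AE]
  have e3 : ∀ m N : ℕ, MeasurableSet (⋂ n : ℕ, ⋂ (_ : N ≤ n), ⋂ n' : ℕ, ⋂ (_ : N ≤ n'),
      ⋂ F : Finset ℕ, ⋂ G : Finset ℕ, ⋂ F' : Finset ℕ, ⋂ G' : Finset ℕ,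
      ((({x | F ⊆ Finset.range n ∧ ∀ k < n, (k ∈ F ↔ x ∈ X k)} ∩
        {x | G ⊆ Finset.range n ∧ ∀ k < n, (k ∈ G ↔ x ∈ Y k)}) ∩
        ({x | F' ⊆ Finset.range n' ∧ ∀ k < n', (k ∈ F' ↔ x ∈ X k)} ∩
        {x | G' ⊆ Finset.range n' ∧ ∀ k < n', (k ∈ G' ↔ x ∈ Y k)}))ᶜ ∪
        {_x | |((F ∩ G).card : ℝ) / G.card - ((F' ∩ G').card : ℝ) / G'.card| ≤
              1 / ((m : ℝ) + 1)})) := fun m N =>
    MeasurableSet.iInter fun n => MeasurableSet.iInter fun _ =>
      MeasurableSet.iInter fun n' => MeasurableSet.iInter fun _ => MeasurableSet.iInter fun F =>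
      MeasurableSet.iInter fun G => MeasurableSet.iInter fun F' => MeasurableSet.iInter fun G' =>
      (((measurableSet_trace hX _ _).inter (measurableSet_trace hY _ _)).inter
        ((measurableSet_trace hX _ _).inter (measurableSet_trace hY _ _))).compl.union
        (MeasurableSet.const _)
  intro m
  beta_reduce
  rw [fex_AE (e3 m), mem_AE_iff]
  filter_upwards [h] with x hx _
  obtain ⟨N, hN⟩ := hx m
  simp only [mem_iUnion, mem_iInter]
  refine ⟨N, fun n hn n' hn' F G F' G' => ?_⟩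
  by_cases hc : ((F ⊆ Finset.range n ∧ ∀ k < n, (k ∈ F ↔ x ∈ X k)) ∧
      (G ⊆ Finset.range n ∧ ∀ k < n, (k ∈ G ↔ x ∈ Y k))) ∧
    ((F' ⊆ Finset.range n' ∧ ∀ k < n', (k ∈ F' ↔ x ∈ X k)) ∧
      (G' ⊆ Finset.range n' ∧ ∀ k < n', (k ∈ G' ↔ x ∈ Y k)))
  · exact Or.inr (hN n hn n' hn' F G F' G' hc)
  · exact Or.inl hc

/-- If the frequencies along `k` converge, then the relative density in the range of `k` does not
oscillate. -/
theorem good_of_tendsto {X : ℕ → Set Ω} {k : ℕ → ℕ} (hk : StrictMono k) {x : Ω} {l : ℝ}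
    (h : Tendsto (fun N : ℕ => S (fun i => X (k i)) N x / N) atTop (𝓝 l)) :
    Good X (fun n => {_x | n ∈ Set.range k}) x := by
  classical
  -- the number of elements of the range below `n`
  let c : ℕ → ℕ := fun n => ((Finset.range n).filter fun i => k i < n).card
  have hfil : ∀ n, ((Finset.range n).filter fun i => k i < n) = Finset.range (c n) := by
    intro n
    -- a downward closed finite set of natural numbers
    have hdown : ∀ i j, i ≤ j → j ∈ ((Finset.range n).filter fun i => k i < n) →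
        i ∈ ((Finset.range n).filter fun i => k i < n) := by
      intro i j hij hj
      rw [Finset.mem_filter, Finset.mem_range] at hj ⊢
      exact ⟨lt_of_le_of_lt hij hj.1, lt_of_le_of_lt (hk.monotone hij) hj.2⟩
    symm
    apply Finset.eq_of_subset_of_card_le
    · intro i hi
      by_contra hcon
      have hsub : ((Finset.range n).filter fun i => k i < n) ⊆ Finset.range i := by
        intro j hj
        rw [Finset.mem_range]
        by_contra hle
        exact hcon (hdown i j (not_lt.1 hle) hj)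
      have := Finset.card_le_card hsub
      rw [Finset.card_range] at this
      rw [Finset.mem_range] at hi
      exact absurd this (not_le.2 hi)
    · rw [Finset.card_range]
  have hmem : ∀ n i, i < c n ↔ k i < n := by
    intro n i
    rw [← Finset.mem_range, ← hfil, Finset.mem_filter, Finset.mem_range]
    exact ⟨fun h => h.2, fun h => ⟨lt_of_le_of_lt (hk.le_apply) h, h⟩⟩
  have hct : Tendsto c atTop atTop := by
    refine tendsto_atTop.2 fun M => eventually_atTop.2 ⟨k M + 1, fun n hn => ?_⟩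
    exact ((hmem n M).2 (Nat.lt_of_succ_le hn)).le
  have ht := h.comp hct
  -- the quotients
  have hquot : ∀ n (F G : Finset ℕ), (F ⊆ Finset.range n ∧ ∀ j < n, (j ∈ F ↔ x ∈ X j)) →
      (G ⊆ Finset.range n ∧ ∀ j < n, (j ∈ G ↔ j ∈ Set.range k)) →
      ((F ∩ G).card : ℝ) / G.card = S (fun i => X (k i)) (c n) x / (c n : ℕ) := by
    intro n F G hF hG
    have hG' : G = (Finset.range (c n)).image k := by
      ext j
      rw [Finset.mem_image]
      constructor
      · intro hj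
        have hjn := Finset.mem_range.1 (hG.1 hj)
        obtain ⟨i, rfl⟩ := (hG.2 j hjn).1 hj
        exact ⟨i, Finset.mem_range.2 ((hmem n i).2 hjn), rfl⟩
      · rintro ⟨i, hi, rfl⟩
        have hjn := (hmem n i).1 (Finset.mem_range.1 hi)
        exact (hG.2 _ hjn).2 ⟨i, rfl⟩
    have hFG : F ∩ G = ((Finset.range (c n)).filter fun i => x ∈ X (k i)).image k := by
      ext j
      rw [Finset.mem_inter, hG', Finset.mem_image, Finset.mem_image]
      constructor
      · rintro ⟨hj, i, hi, rfl⟩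
        refine ⟨i, Finset.mem_filter.2 ⟨hi, ?_⟩, rfl⟩
        exact (hF.2 _ ((hmem n i).1 (Finset.mem_range.1 hi))).1 hj
      · rintro ⟨i, hi, rfl⟩
        obtain ⟨hi, hx⟩ := Finset.mem_filter.1 hi
        exact ⟨(hF.2 _ ((hmem n i).1 (Finset.mem_range.1 hi))).2 hx, i, hi, rfl⟩
    have hGc : G.card = c n := by
      rw [hG', Finset.card_image_of_injective _ hk.injective, Finset.card_range]
    have hFGc : ((F ∩ G).card : ℝ) = S (fun i => X (k i)) (c n) x := by
      rw [hFG, Finset.card_image_of_injective _ hk.injective]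
      unfold S
      rw [Finset.card_filter]
      push_cast
      refine Finset.sum_congr rfl fun i _ => ?_
      by_cases hx : x ∈ X (k i) <;> simp [hx]
    rw [hFGc, hGc]
  intro m
  have hpos : (0 : ℝ) < 1 / ((m : ℝ) + 1) / 2 := by positivity
  obtain ⟨N, hN⟩ := eventually_atTop.1 ((Metric.tendsto_nhds.1 ht) _ hpos)
  refine ⟨N, fun n hn n' hn' F G F' G' hFG => ?_⟩
  rw [hquot n F G hFG.1.1 hFG.1.2, hquot n' F' G' hFG.2.1 hFG.2.2]
  have h1 := hN n hn
  have h2 := hN n' hn'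
  rw [Real.dist_eq] at h1 h2
  have h3 := abs_sub_abs_le_abs_sub (0 : ℝ) 0
  simp only [Function.comp] at h1 h2
  rw [abs_lt] at h1 h2
  rw [abs_le]
  constructor <;> linarith [h1.1, h1.2, h2.1, h2.2]

/-- The infinite sets of the ground model witness that the oscillation reaping number of the
extension is at most the continuum of the ground model. -/
theorem oscLe [IsProbabilityMeasure μ] (p : Cond μ) :
    p ∈ OscLe (Cond μ) (𝔠 : Cardinal.{0}).out := by
  classical
  have hcard : #{R : Set ℕ // R.Infinite} ≤ #(𝔠 : Cardinal.{0}).out := by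
    rw [Cardinal.mk_out, ← Cardinal.mk_set_nat]
    exact Cardinal.mk_subtype_le _
  have hne : Nonempty {R : Set ℕ // R.Infinite} := ⟨⟨Set.univ, Set.infinite_univ⟩⟩
  obtain ⟨f⟩ := (Cardinal.le_def _ _).1 hcard
  obtain ⟨e, he⟩ : ∃ e : (𝔠 : Cardinal.{0}).out → {R : Set ℕ // R.Infinite}, Function.Surjective e :=
    ⟨Function.invFun f, Function.invFun_surjective f.injective⟩
  have hB : ∀ y n, meets ((fun n => fground (n ∈ (e y).1) : RName (Cond μ)) n) =
      AE μ {_x | n ∈ (e y).1} := fun y n => by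
    show meets (fground _) = _
    rw [meets_fground, fground_AE]
  refine mem_fex_of (fun y n => fground (n ∈ (e y).1)) fun q _ => ⟨fun y N => ?_, fun A => ?_⟩
  · obtain ⟨n, hn, hn'⟩ := (e y).2.exists_gt N
    refine mem_fex_of n fun r _ => mem_fex_of hn'.le fun s _ => ?_
    show s ∈ meets (fground _)
    rw [meets_fground]
    exact hn
  · refine mem_fimp.2 fun r _ _ => ?_
    obtain ⟨X, hX, hA⟩ := exists_rep (μ := μ) A
    obtain ⟨k, hk, hk'⟩ := komlos (μ := μ) hX
    obtain ⟨y, hy⟩ := he ⟨Set.range k, Set.infinite_range_of_injective hk.injective⟩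
    refine ⟨r, le_rfl, mem_fex_of y fun s _ => ?_⟩
    refine nonOsc_of hX hA (fun n => MeasurableSet.const _) (hB y) ?_ s
    filter_upwards [hk'] with x hx
    obtain ⟨l, hl⟩ := hx
    rw [hy]
    exact good_of_tendsto hk hl

end Pool.Agent.Q307.Osc
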